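import Mathlib
import Pool.Agent.SCT.StmtsC

set_option autoImplicit false

namespace Pool.Agent.SCT.H95

open Pool.Agent.SCT MvPolynomial Cardinal

theorem trdeg_ft (k : Type) [Field k] (n : ℕ) :
    Algebra.trdeg k (FT k n) = ((n + 2 : ℕ) : Cardinal) := by
  have h := trdeg_add_eq k (MvPolynomial (Fin (n + 2)) k) (A := FT k n)
  have h0 : Algebra.trdeg (MvPolynomial (Fin (n + 2)) k) (FT k n) = 0 :=
    trdeg_eq_zero_iff.mpr (IsLocalization.isAlgebraic _ (nonZeroDivisors _))
  rw [← h, MvPolynomial.trdeg_of_isDomain, h0, add_zero]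
  simp

theorem ain : AinStmt := by
  intro k _ n x w i j hx hw hspan hdim
  obtain ⟨a, b, hab⟩ := Submodule.mem_span_pair.mp hspan
  set CC : IntermediateField k (FT k n) := rat k x ⊔ rat k w with hCC
  have hgen : ∀ l, gen k n l = (a * x i) * (x l / x i) + (b * w j) * (w l / w j) := by
    intro l
    have h1 : a * x l + b * w l = gen k n l := by
      have := congrFun hab l
      simpa using this
    rw [← h1]
    field_simp
  refine ⟨a * x i, b * w j, hgen, ?_⟩
  set v : Fin 2 → FT k n := ![a * x i, b * w j] with hv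
  set A0 := Algebra.adjoin CC (Set.range v) with hA0
  have hxm : ∀ l, x l / x i ∈ CC := fun l =>
    (le_sup_left : rat k x ≤ CC) (IntermediateField.subset_adjoin _ _ ⟨l, i, rfl⟩)
  have hwm : ∀ l, w l / w j ∈ CC := fun l =>
    (le_sup_right : rat k w ≤ CC) (IntermediateField.subset_adjoin _ _ ⟨l, j, rfl⟩)
  have hCA : ∀ z ∈ CC, z ∈ A0 := fun z hz => A0.algebraMap_mem (⟨z, hz⟩ : CC)
  have hα : a * x i ∈ A0 := Algebra.subset_adjoin ⟨0, rfl⟩
  have hβ : b * w j ∈ A0 := Algebra.subset_adjoin ⟨1, rfl⟩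
  have hg : ∀ l, gen k n l ∈ A0 := by
    intro l
    rw [hgen l]
    exact A0.add_mem (A0.mul_mem hα (hCA _ (hxm l))) (A0.mul_mem hβ (hCA _ (hwm l)))
  have hp : ∀ p : MvPolynomial (Fin (n + 2)) k,
      algebraMap (MvPolynomial (Fin (n + 2)) k) (FT k n) p ∈ A0 := by
    intro p
    rw [← aeval_gen]
    induction p using MvPolynomial.induction_on with
    | C c =>
      rw [aeval_C]
      exact hCA _ (CC.algebraMap_mem c)
    | add p q hp hq =>
      rw [map_add]
      exact A0.add_mem hp hq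
    | mul_X p l hp =>
      rw [map_mul, aeval_X]
      exact A0.mul_mem hp (hg l)
  have halg : Algebra.IsAlgebraic A0 (FT k n) := by
    refine ⟨fun z => ?_⟩
    obtain ⟨p, q, _, rfl⟩ := IsFractionRing.div_surjective (A := MvPolynomial (Fin (n + 2)) k) z
    have h1 : IsAlgebraic A0 (algebraMap (MvPolynomial (Fin (n + 2)) k) (FT k n) p) :=
      isAlgebraic_algebraMap (⟨_, hp p⟩ : A0)
    have h2 : IsAlgebraic A0 (algebraMap (MvPolynomial (Fin (n + 2)) k) (FT k n) q) :=
      isAlgebraic_algebraMap (⟨_, hp q⟩ : A0)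
    rw [div_eq_mul_inv]
    exact h1.mul h2.inv
  have hle : (#(Fin 2) : Cardinal) ≤ Algebra.trdeg CC (FT k n) := by
    by_contra hlt
    have hlt := not_le.mp hlt
    have i1 : FaithfulSMul k CC :=
      (faithfulSMul_iff_algebraMap_injective k CC).mpr (algebraMap k CC).injective
    have i2 : FaithfulSMul CC (FT k n) :=
      (faithfulSMul_iff_algebraMap_injective CC (FT k n)).mpr (algebraMap CC (FT k n)).injective
    have h1 := trdeg_add_eq k CC (A := FT k n)
    rw [trdeg_ft] at h1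
    rw [Cardinal.mk_fin] at hlt
    obtain ⟨d, hd⟩ := Cardinal.lt_aleph0.1 (hlt.trans (Cardinal.natCast_lt_aleph0))
    obtain ⟨e, he⟩ := Cardinal.lt_aleph0.1
      (lt_of_le_of_lt (show Algebra.trdeg k CC ≤ (n : Cardinal) from hdim)
        (Cardinal.natCast_lt_aleph0))
    have hdim' : Algebra.trdeg k CC ≤ (n : Cardinal) := hdim
    rw [he, Nat.cast_le] at hdim'
    rw [hd, Nat.cast_lt] at hlt
    rw [he, hd, ← Nat.cast_add, Nat.cast_inj] at h1
    omega
  exact (Algebra.IsAlgebraic.isTranscendenceBasis_of_le_trdeg_of_finite CC v hle).1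

end Pool.Agent.SCT.H95
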